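import Pool.Agent.H89SM.WMany

/-!
# The Bodirsky-Pinsker dichotomy for biased and for randomly perturbed templates

Fix a homogeneous structure 𝔹 in a finite relational signature and a finite family Γ of
Aut(𝔹)-invariant relations. Let R_1, ..., R_t be independent random Aut(𝔹)-invariant relations of
arities at least m, each made by putting every orbit o of tuples into R_j independently of the
others, with a probability x j o of its own, any number between p and 1 - p. Then, outside an event
of probability at most t C exp(-(p^N e^(cm))), the template (B; Γ, R_1, ..., R_t) has a constant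
endomorphism, or pp-defines every relation which is first-order definable in 𝔹.
-/

namespace Pool.Agent.Results.MP_6ab439_lc.BiasedReducts

open Pool.Agent.W994.AR Pool.Agent.H89SM

theorem result {B σ ι : Type} [Nontrivial B] [Finite σ] [Finite ι] {arB : σ → ℕ} {arΓ : ι → ℕ}
    (𝔹 : Str σ arB B) (h𝔹 : Homogeneous 𝔹) (Γ : Str ι arΓ B)
    (hΓ : ∀ l, Invar (autGroup 𝔹) (Γ l)) :
    -- the weights are a probability distribution on the families of invariant relations
    (∀ (t : ℕ) (k : Fin t → ℕ) (x : ∀ j, Orb (autGroup 𝔹) (Fin (k j)) → ℝ),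
      ∑ᶠ R : (∀ j, InvRel (autGroup 𝔹) (Fin (k j))), ∏ j, prob (autGroup 𝔹) (x j) (R j) = 1) ∧
    -- the templates are reducts of homogeneous, finitely bounded structures
    (∀ (t : ℕ) (k : Fin t → ℕ) (R : ∀ j, InvRel (autGroup 𝔹) (Fin (k j))),
      Homogeneous (expand 𝔹 (expand Γ (fun j => (R j).1))) ∧
      (FinitelyBounded 𝔹 → FinitelyBounded (expand 𝔹 (expand Γ (fun j => (R j).1))))) ∧
    -- templates with a constant endomorphism are trivial
    (∀ (t : ℕ) (k : Fin t → ℕ) (R : ∀ j, InvRel (autGroup 𝔹) (Fin (k j))),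
      ConstEndo (expand Γ (fun j => (R j).1)) →
        ¬ PPConstructsK3 (expand Γ (fun j => (R j).1)) ∧
        ∀ (X : Type) (𝕏 : Str (ι ⊕ Fin t) (Sum.elim arΓ k) X),
          (∃ f : X → B, ∀ i, ∀ v ∈ 𝕏 i, (fun j => f (v j)) ∈ expand Γ (fun j => (R j).1) i) ↔
            ∀ i, (𝕏 i).Nonempty → (expand Γ (fun j => (R j).1) i).Nonempty) ∧
    -- all other templates are as hard as possible, up to an event of tiny probability
    ∃ (C c : ℝ) (N : ℕ), 0 < C ∧ 0 < c ∧
      ∀ (t : ℕ) (k : Fin t → ℕ) (m : ℕ) (p : ℝ) (x : ∀ j, Orb (autGroup 𝔹) (Fin (k j)) → ℝ),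
        1 ≤ t → (∀ j, m ≤ k j) → 0 < p → p ≤ 1 / 2 → (∀ j o, p ≤ x j o ∧ x j o ≤ 1 - p) →
        ∑ᶠ (R : ∀ j, InvRel (autGroup 𝔹) (Fin (k j)))
          (_ : ¬ (ConstEndo (expand Γ (fun j => (R j).1)) ∨
            PPMax (autGroup 𝔹) (expand Γ (fun j => (R j).1)))),
            ∏ j, prob (autGroup 𝔹) (x j) (R j) ≤
          t * C * Real.exp (-(p ^ N * Real.exp (c * m))) := by
  classical
  have hfin : ∀ k, Finite (Orb (autGroup 𝔹) (Fin k)) := fun k => hom_finite h𝔹 (Fin k)
  refine ⟨?_, ?_, ?_, ?_⟩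
  · intro t k x
    exact sum_prod_prob _ hfin k x
  · intro t k R
    have hinv : ∀ j, Invar (autGroup 𝔹) (expand Γ (fun j => (R j).1) j) := by
      rintro (l | j)
      · exact hΓ l
      · exact (R j).2
    exact ⟨homogeneous_expand h𝔹 _ hinv, fun h => finitelyBounded_expand h𝔹 h _ hinv⟩
  · intro t k R h
    exact ⟨not_k3_of_const h, fun X 𝕏 => const_csp h X 𝕏⟩
  · obtain ⟨C, c, N, hC, hc, hb⟩ := rich_prob_many (autGroup 𝔹) (dim arB arΓ) (dim_pos _ _) hfin
    refine ⟨C, c, N, hC, hc, ?_⟩
    intro t k m p x ht hm hp0 hp2 hx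
    refine le_trans ?_ (hb t k m p x hm hp0 hp2 hx)
    have hF : ∀ j, Finite (InvRel (autGroup 𝔹) (Fin (k j))) := fun j => by
      have := hfin (k j)
      exact finite_inv _ _
    apply gsum_mono
    · intro R
      apply Finset.prod_nonneg
      intro j _
      have := hfin (k j)
      exact prob_nonneg _ (k j) hp0 (hx j) (R j)
    · intro R hR hrich
      apply hR
      by_cases hcst : ConstEndo (expand Γ (fun j => (R j).1))
      · exact Or.inl hcst
      · exact Or.inr (max_of_rich 𝔹 h𝔹 Γ hΓ ht R hrich hcst)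

end Pool.Agent.Results.MP_6ab439_lc.BiasedReducts
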