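import Pool.Agent.X99.SY.B

/-!
# The Bodirsky-Pinsker dichotomy for almost all templates with prescribed symmetries

The templates studied most (hypergraph colouring problems, not-all-equal problems, problems on
betweenness or cyclic orders, ...) have relations with many symmetries of the coordinates, and form a
vanishing share of all templates. We show: for every homogeneous structure 𝔹 in a finite relational
signature, every finite family Γ of Aut(𝔹)-invariant relations and all groups H_j of permutations of
the coordinates, all but an exponentially small proportion of the tuples of H_j-symmetric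
Aut(𝔹)-invariant relations R_j of large arity give a template (B; Γ, R_1, ..., R_t) with a constant
endomorphism, or one which pp-defines every relation first-order definable in 𝔹.
-/

set_option autoImplicit false

namespace Pool.Agent.Results.MP_6ab439_lc.SymmetricTemplates

open Pool.Agent.W994.AR Pool.Agent.X99.SY

theorem result {B σ ι : Type} [Nontrivial B] [Finite σ] [Finite ι] {arB : σ → ℕ} {arΓ : ι → ℕ}
    (𝔹 : Str σ arB B) (h𝔹 : Homogeneous 𝔹) (Γ : Str ι arΓ B)
    (hΓ : ∀ l, Invar (autGroup 𝔹) (Γ l)) :
    -- there are finitely many symmetric invariant relations of each arity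
    (∀ (n : ℕ) (H : Subgroup (Equiv.Perm (Fin n))), Finite (SymRel (autGroup 𝔹) H)) ∧
    -- the templates are reducts of homogeneous, finitely bounded structures
    (∀ (t : ℕ) (k : Fin t → ℕ) (H : ∀ j, Subgroup (Equiv.Perm (Fin (k j))))
      (R : ∀ j, SymRel (autGroup 𝔹) (H j)),
      Homogeneous (expand 𝔹 (expand Γ (fun j => (R j).1.1))) ∧
      (FinitelyBounded 𝔹 → FinitelyBounded (expand 𝔹 (expand Γ (fun j => (R j).1.1))))) ∧
    -- templates with a constant endomorphism are trivial
    (∀ (t : ℕ) (k : Fin t → ℕ) (H : ∀ j, Subgroup (Equiv.Perm (Fin (k j))))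
      (R : ∀ j, SymRel (autGroup 𝔹) (H j)),
      ConstEndo (expand Γ (fun j => (R j).1.1)) →
        ¬ PPConstructsK3 (expand Γ (fun j => (R j).1.1)) ∧
        ∀ (X : Type) (𝕏 : Str (ι ⊕ Fin t) (Sum.elim arΓ k) X),
          (∃ f : X → B, ∀ i, ∀ v ∈ 𝕏 i, (fun j => f (v j)) ∈ expand Γ (fun j => (R j).1.1) i) ↔
            ∀ i, (𝕏 i).Nonempty → (expand Γ (fun j => (R j).1.1) i).Nonempty) ∧
    -- all but a tiny proportion of the other templates are as hard as possible
    ∃ C δ : ℝ, 0 < C ∧ 0 < δ ∧
      (∀ (t : ℕ) (k : Fin t → ℕ) (H : ∀ j, Subgroup (Equiv.Perm (Fin (k j)))) (m : ℕ), 1 ≤ t →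
        (∀ j, m ≤ k j) →
        (Nat.card {R : ∀ j, SymRel (autGroup 𝔹) (H j) //
          ¬ (ConstEndo (expand Γ (fun j => (R j).1.1)) ∨
              PPMax (autGroup 𝔹) (expand Γ (fun j => (R j).1.1)))} : ℝ) ≤
          t * (C * Real.exp (-(δ * m))) * Nat.card (∀ j, SymRel (autGroup 𝔹) (H j))) ∧
      (∀ (n : ℕ) (H : Subgroup (Equiv.Perm (Fin n))), 1 ≤ n →
        ((2⁻¹ : ℝ) ^ constOrbits (autGroup 𝔹) Γ - C * Real.exp (-(δ * n))) *
            Nat.card (SymRel (autGroup 𝔹) H) ≤
          Nat.card {R : SymRel (autGroup 𝔹) H //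
            PPConstructsK3 (expand Γ (τ := Fin 1) (k := fun _ => n) (fun _ => R.1.1))} ∧
        (Nat.card {R : SymRel (autGroup 𝔹) H //
            PPConstructsK3 (expand Γ (τ := Fin 1) (k := fun _ => n) (fun _ => R.1.1))} : ℝ) ≤
          (2⁻¹ : ℝ) ^ constOrbits (autGroup 𝔹) Γ * Nat.card (SymRel (autGroup 𝔹) H)) := by
  classical
  have hfin : ∀ k, Finite (Orb (autGroup 𝔹) (Fin k)) := fun k => hom_finite h𝔹 (Fin k)
  have hfinI : ∀ (n : ℕ) (H : Subgroup (Equiv.Perm (Fin n))), Finite (SymRel (autGroup 𝔹) H) :=
    fun n H => by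
      have := hfin n
      exact finite_sym _ H
  refine ⟨hfinI, ?_, ?_, ?_⟩
  · intro t k H R
    have hinv : ∀ j, Invar (autGroup 𝔹) (expand Γ (fun j => (R j).1.1) j) := by
      rintro (l | j)
      · exact hΓ l
      · exact (R j).1.2
    exact ⟨homogeneous_expand h𝔹 _ hinv, fun h => finitelyBounded_expand h𝔹 h _ hinv⟩
  · intro t k H R h
    exact ⟨not_k3_of_const h, fun X 𝕏 => const_csp h X 𝕏⟩
  · obtain ⟨C, δ, hC, hδ, hbd⟩ := sym_bound (autGroup 𝔹) (dim arB arΓ) (dim_pos _ _) hfin
    refine ⟨C, δ, hC, hδ, ?_, ?_⟩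
    · intro t k H m ht hm
      have hX : ∀ j, Finite (SymRel (autGroup 𝔹) (H j)) := fun j => hfinI _ _
      have h1 := pi_bad (fun j => SymRel (autGroup 𝔹) (H j))
        (fun j R => Rich (autGroup 𝔹) (Fin (dim arB arΓ)) R.1.1) (C * Real.exp (-(δ * m)))
        (fun j => by
          refine (hbd (k j) (H j)).trans ?_
          apply mul_le_mul_of_nonneg_right _ (Nat.cast_nonneg _)
          apply mul_le_mul_of_nonneg_left _ hC.le
          apply Real.exp_le_exp.2
          have h5 : δ * (m : ℝ) ≤ δ * (k j : ℝ) := by
            apply mul_le_mul_of_nonneg_left _ hδ.le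
            exact_mod_cast hm j
          linarith)
      refine le_trans ?_ h1
      have h2 : Nat.card {R : ∀ j, SymRel (autGroup 𝔹) (H j) //
          ¬ (ConstEndo (expand Γ (fun j => (R j).1.1)) ∨
              PPMax (autGroup 𝔹) (expand Γ (fun j => (R j).1.1)))} ≤
          Nat.card {R : ∀ j, SymRel (autGroup 𝔹) (H j) //
            ¬ ∀ j, Rich (autGroup 𝔹) (Fin (dim arB arΓ)) (R j).1.1} := by
        apply Nat.card_le_card_of_injective (fun R => ⟨R.1, fun h => R.2 (by
          by_cases hcst : ConstEndo (expand Γ (fun j => (R.1 j).1.1))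
          · exact Or.inl hcst
          · exact Or.inr (max_of_rich 𝔹 h𝔹 Γ hΓ ht (fun j => (R.1 j).1) h hcst))⟩)
        intro R R' h
        exact Subtype.ext (congrArg (fun x => x.1) h)
      exact_mod_cast h2
    · intro n H hn
      have := hfin n
      have := hfinI n H
      have hcount := sym_const_count (G := autGroup 𝔹) Γ n hn H
      set Z := {R : SymRel (autGroup 𝔹) H //
        ∀ b, (∀ l, (Γ l).Nonempty → (fun _ => b) ∈ Γ l) → (fun _ => b) ∉ R.1.1} with hZ
      have hcountr : (Nat.card Z : ℝ) =
          (2⁻¹ : ℝ) ^ constOrbits (autGroup 𝔹) Γ * Nat.card (SymRel (autGroup 𝔹) H) := by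
        rw [← hcount]
        push_cast
        rw [inv_pow]
        field_simp
      constructor
      · -- lower bound
        have h1 := hbd n H
        have h3 : Nat.card Z ≤ Nat.card {R : SymRel (autGroup 𝔹) H //
            PPConstructsK3 (expand Γ (τ := Fin 1) (k := fun _ => n) (fun _ => R.1.1))} +
            Nat.card {R : SymRel (autGroup 𝔹) H //
              ¬ Rich (autGroup 𝔹) (Fin (dim arB arΓ)) R.1.1} := by
          rw [← Nat.card_sum]
          let F : Z → {R : SymRel (autGroup 𝔹) H //
            PPConstructsK3 (expand Γ (τ := Fin 1) (k := fun _ => n) (fun _ => R.1.1))} ⊕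
            {R : SymRel (autGroup 𝔹) H //
              ¬ Rich (autGroup 𝔹) (Fin (dim arB arΓ)) R.1.1} := fun R =>
            if h : PPConstructsK3 (expand Γ (τ := Fin 1) (k := fun _ => n) (fun _ => R.1.1.1)) then
              Sum.inl ⟨R.1, h⟩
            else Sum.inr ⟨R.1, fun hrich => h (by
              have hcst : ¬ ConstEndo (expand Γ (τ := Fin 1) (k := fun _ => n)
                  (fun _ => R.1.1.1)) := by
                rintro ⟨b, hb⟩
                refine R.2 b ?_ ?_
                · rintro l ⟨v, hv⟩
                  exact hb (Sum.inl l) v hv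
                · obtain ⟨v, hv⟩ := rich_nonempty (dim_ge arB arΓ) hrich
                  exact hb (Sum.inr 0) v hv
              exact (max_of_rich 𝔹 h𝔹 Γ hΓ (t := 1) Nat.one_pos (k := fun _ => n)
                (fun _ => R.1.1) (fun _ => hrich) hcst).1)⟩
          apply Nat.card_le_card_of_injective F
          intro R R' h
          simp only [F] at h
          split_ifs at h with h4 h5 h5
          · simp only [Sum.inl.injEq, Subtype.mk.injEq] at h
            exact Subtype.ext h
          · simp only [Sum.inr.injEq, Subtype.mk.injEq] at h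
            exact Subtype.ext h
        have h4 : (Nat.card Z : ℝ) ≤ Nat.card {R : SymRel (autGroup 𝔹) H //
            PPConstructsK3 (expand Γ (τ := Fin 1) (k := fun _ => n) (fun _ => R.1.1))} +
            Nat.card {R : SymRel (autGroup 𝔹) H //
              ¬ Rich (autGroup 𝔹) (Fin (dim arB arΓ)) R.1.1} := by exact_mod_cast h3
        rw [hcountr] at h4
        rw [sub_mul]
        linarith
      · -- upper bound
        rw [← hcountr]
        have h1 : Nat.card {R : SymRel (autGroup 𝔹) H //
            PPConstructsK3 (expand Γ (τ := Fin 1) (k := fun _ => n) (fun _ => R.1.1))} ≤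
            Nat.card Z := by
          apply Nat.card_le_card_of_injective (fun R => (⟨R.1, fun b hb hR => by
            refine not_k3_of_const ⟨b, ?_⟩ R.2
            rintro (l | j) v hv
            · exact hb l ⟨v, hv⟩
            · exact hR⟩ : Z))
          intro R R' h
          exact Subtype.ext (congrArg (fun x => x.1) h)
        exact_mod_cast h1

end Pool.Agent.Results.MP_6ab439_lc.SymmetricTemplates
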